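import Mathlib

/-!
# A connected noninvolutory quandle with two good involutions

The quandle is the conjugacy class (of `24` elements) of a `4`-cycle in the Weyl group of type
`D₄`, a group of order `192` generated by this class.  In this class `x` is conjugate both to
`x⁻¹` and to `-x⁻¹`, while `x²` is not central.
-/

namespace Pool.Agent.Results.MP_f5f603_al.TwoGoodInvolutions

/-- Quandles: `op x y` is `x * y`. -/
structure IsQuandle {R : Type} (op : R → R → R) : Prop where
  idem : ∀ x, op x x = x
  bij : ∀ y, Function.Bijective (fun x => op x y)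
  dist : ∀ x y z, op (op x y) z = op (op x z) (op y z)

/-- The right translation `s_y : x ↦ x * y`, a permutation of `R`. -/
noncomputable def IsQuandle.s {R : Type} {op : R → R → R} (h : IsQuandle op) (y : R) :
    Equiv.Perm R :=
  Equiv.ofBijective (fun x => op x y) (h.bij y)

/-- Connected quandles: the group generated by all right translations is transitive. -/
def IsQuandle.Connected {R : Type} {op : R → R → R} (h : IsQuandle op) : Prop :=
  ∀ x y : R, ∃ g ∈ Subgroup.closure (Set.range h.s), g x = y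

/-- Involutory quandles. -/
def Involutory {R : Type} (op : R → R → R) : Prop := ∀ x y, op (op x y) y = x

/-- Good involutions (in the sense of Kamada). -/
structure IsQuandle.GoodInvolution {R : Type} {op : R → R → R} (h : IsQuandle op)
    (ρ : R → R) : Prop where
  invol : ∀ x, ρ (ρ x) = x
  equivariant : ∀ x y, ρ (op x y) = op (ρ x) y
  inverse : ∀ y, h.s (ρ y) = (h.s y)⁻¹

/-- The multiplication table (base `32` digits). -/
def table : ℕ := 0xba630ba5c2abe83826f1126eea0eaf558e45584ea36a12594775942a868d7b6a889ef69d4c8435f5b1e373227518574812d732e74a046bb92169d0cb995e3996b4744501966fa1675141d13486f34968640117c8c3448cb04590aae72732248dc8a92eb3231d122a37a2253100f03aa179a2928004785cea732eaaade17cc32531d70aeaf0c9f389dc07b666bbac001e2e335f3b02ee63ac95d46d199a54b9966d563694663c44c6be455092c644e22bdb24b1426be8b3c549950ab5bdb44c4ea2ae54b2a11b298058d0f8aad002acc43d634dc874dc0c4056d3dd2465d205b50108d152412a2a255a8c2854089954a85d4c563a07858e92d5663b9903a616919a191a9511dc409a4da9a54710472cc2d2cd0b011876cca15cca861c04450a6008912263635105888048d88910157a21a36c873b804a1a28d1cdb281182184d3b32e21120c98466b8acc009364502f095e6b08097d101798252400e08cb24814e7408090c2553920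

/-- The operation. -/
def op (a b : Fin 24) : Fin 24 :=
  ⟨(table / 32 ^ (24 * a.val + b.val)) % 32 % 24, Nat.mod_lt _ (by norm_num)⟩

/-- Decoding a list of elements. -/
def dec (n : ℕ) (a : Fin 24) : Fin 24 := ⟨(n / 32 ^ a.val) % 32 % 24, Nat.mod_lt _ (by norm_num)⟩

/-- The good involution `x ↦ x⁻¹`. -/
def ρ₁ : Fin 24 → Fin 24 := dec 0x999c2ba9e38d4eb648a06d92185088

/-- The good involution `x ↦ -x⁻¹`. -/
def ρ₂ : Fin 24 → Fin 24 := dec 0x2c80c4d82d2221411a6e1aaef3ae35

/-- Words witnessing connectedness. -/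
def wa : Fin 24 → Fin 24 := dec 0x200000000000000000000000000

/-- Words witnessing connectedness. -/
def wb : Fin 24 → Fin 24 := dec 0x88251004010021080010880001400

/-- Words witnessing connectedness. -/
def wc : Fin 24 → Fin 24 := dec 0x30c4621d2a2884718c2159c89328a0

theorem op_idem : ∀ a : Fin 24, op a a = a := by decide +kernel

theorem op_dist : ∀ a b c : Fin 24, op (op a b) c = op (op a c) (op b c) := by decide +kernel

theorem op_inv : ∀ a b : Fin 24, op (op a b) (ρ₁ b) = a := by decide +kernel

theorem op_inv' : ∀ a b : Fin 24, op (op a (ρ₁ b)) b = a := by decide +kernel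

theorem op_inv₂ : ∀ a b : Fin 24, op (op a b) (ρ₂ b) = a := by decide +kernel

theorem ρ₁_invol : ∀ a : Fin 24, ρ₁ (ρ₁ a) = a := by decide +kernel

theorem ρ₂_invol : ∀ a : Fin 24, ρ₂ (ρ₂ a) = a := by decide +kernel

theorem ρ₁_op : ∀ a b : Fin 24, ρ₁ (op a b) = op (ρ₁ a) b := by decide +kernel

theorem ρ₂_op : ∀ a b : Fin 24, ρ₂ (op a b) = op (ρ₂ a) b := by decide +kernel

theorem reach : ∀ a : Fin 24, op (op (op 0 (wa a)) (wb a)) (wc a) = a := by decide +kernel

theorem isQuandle : IsQuandle op where
  idem := op_idem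
  bij y := ⟨fun a b h => by
      have h' : op a y = op b y := h
      rw [← op_inv a y, h', op_inv], fun a => ⟨op a (ρ₁ y), op_inv' a y⟩⟩
  dist := op_dist

theorem isGood {ρ : Fin 24 → Fin 24} (h1 : ∀ a, ρ (ρ a) = a)
    (h2 : ∀ a b, ρ (op a b) = op (ρ a) b) (h3 : ∀ a b, op (op a b) (ρ b) = a) :
    isQuandle.GoodInvolution ρ where
  invol := h1
  equivariant := h2
  inverse y := by
    rw [eq_inv_iff_mul_eq_one]
    ext1 x
    exact h3 x y

theorem connected : isQuandle.Connected := by
  have h0 : ∀ a : Fin 24, ∃ g ∈ Subgroup.closure (Set.range isQuandle.s), g 0 = a := by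
    intro a
    have hs : ∀ y, isQuandle.s y ∈ Subgroup.closure (Set.range isQuandle.s) := fun y =>
      Subgroup.subset_closure ⟨y, rfl⟩
    exact ⟨isQuandle.s (wc a) * (isQuandle.s (wb a) * isQuandle.s (wa a)),
      mul_mem (hs _) (mul_mem (hs _) (hs _)), reach a⟩
  intro x y
  obtain ⟨g, hg, hgx⟩ := h0 x
  obtain ⟨k, hk, hky⟩ := h0 y
  refine ⟨k * g⁻¹, mul_mem hk (inv_mem hg), ?_⟩
  have h1 : g⁻¹ x = 0 := by rw [← hgx]; exact g.symm_apply_apply 0
  rw [Equiv.Perm.mul_apply, h1, hky]

/-- **Theorem.** There is a connected noninvolutory quandle (of order `24`) with two distinct good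
involutions. -/
theorem result : ∃ (R : Type) (_ : Finite R) (op : R → R → R) (h : IsQuandle op),
    h.Connected ∧ ¬ Involutory op ∧
      ∃ ρ₁ ρ₂ : R → R, ρ₁ ≠ ρ₂ ∧ h.GoodInvolution ρ₁ ∧ h.GoodInvolution ρ₂ := by
  refine ⟨Fin 24, inferInstance, op, isQuandle, connected, ?_, ρ₁, ρ₂, ?_,
    isGood ρ₁_invol ρ₁_op op_inv, isGood ρ₂_invol ρ₂_op op_inv₂⟩
  · intro h
    have h1 := h 0 1
    revert h1
    decide +kernel
  · intro h
    have h1 := congrFun h 0
    revert h1
    decide +kernel

end Pool.Agent.Results.MP_f5f603_al.TwoGoodInvolutions
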